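import Pool.Agent.Work.MP_67388f_an.MX.EMom

/-!
Exponential mixing of order two of ONE element gives samples on every wall that contains it.
The first theorem is `sampled_of_exp` (file MX/ESum) with the long vectors as a hypothesis.
-/

set_option autoImplicit false

namespace PoolMX

open MeasureTheory Filter Topology

section aux

private lemma geom_le (Λ : ℕ) (hΛ : 2 ≤ Λ) (j : ℕ) :
    ∑ i ∈ Finset.range (j + 1), (Λ : ℝ) ^ i ≤ 2 * (Λ : ℝ) ^ j := by
  have hΛ' : (2 : ℝ) ≤ (Λ : ℝ) := by exact_mod_cast hΛ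
  induction j with
  | zero => simp
  | succ j ih =>
    rw [Finset.sum_range_succ]
    have h1 : 0 ≤ (Λ : ℝ) ^ j := by positivity
    have h2 : 2 * (Λ : ℝ) ^ j ≤ (Λ : ℝ) ^ (j + 1) := by
      rw [pow_succ, mul_comm]
      exact mul_le_mul_of_nonneg_left hΛ' h1
    linarith

private lemma le_two_pow (j : ℕ) : ((j + 1 : ℕ) : ℝ) ≤ 2 ^ j := by
  induction j with
  | zero => simp
  | succ j ih =>
    rw [pow_succ]
    push_cast at ih ⊢
    have : (0 : ℝ) ≤ j := Nat.cast_nonneg j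
    linarith

private lemma exists_q (A : ℕ) : ∃ q : ℕ, 1 ≤ q ∧ (A * q) ^ 2 ≤ 2 ^ q := by
  have h1 := tendsto_pow_const_div_const_pow_of_one_lt 2 (one_lt_two (α := ℝ))
  have h2 : ∀ᶠ n : ℕ in atTop, (n : ℝ) ^ 2 / 2 ^ n < 1 / ((A : ℝ) + 1) ^ 2 :=
    h1.eventually (gt_mem_nhds (by positivity))
  obtain ⟨q, hq, hq1⟩ := (h2.and (eventually_ge_atTop 1)).exists
  refine ⟨q, hq1, ?_⟩
  rw [div_lt_div_iff₀ (by positivity) (by positivity)] at hq
  have h3 : ((A : ℝ) * q) ^ 2 ≤ 2 ^ q := by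
    have h4 : ((A : ℝ) * q) ^ 2 ≤ (((A : ℝ) + 1) * q) ^ 2 := by
      apply pow_le_pow_left₀ (by positivity)
      exact mul_le_mul_of_nonneg_right (by linarith) (Nat.cast_nonneg _)
    rw [mul_pow ((A : ℝ) + 1)] at h4
    linarith
  exact_mod_cast h3

private lemma exp_le (c : ℝ) (hc : 0 < c) (x : ℝ) (hx : 0 < x) :
    Real.exp (-c * x) ≤ 2 / c ^ 2 * x ^ (-(2 : ℝ)) := by
  have h1 : (c * x) ^ 2 / 2 ≤ Real.exp (c * x) := by
    have := Real.quadratic_le_exp_of_nonneg (mul_pos hc hx).le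
    nlinarith [mul_pos hc hx]
  have h2 : x ^ (-(2 : ℝ)) = (x ^ 2)⁻¹ := by
    rw [Real.rpow_neg hx.le]
    norm_num
  rw [neg_mul, Real.exp_neg, h2, ← div_eq_mul_inv, div_div, inv_eq_one_div,
    div_le_div_iff₀ (Real.exp_pos _) (by positivity)]
  rw [mul_pow] at h1
  linarith

private lemma int_bdd {X : Type*} [TopologicalSpace X] [MeasurableSpace X] [BorelSpace X]
    (μ : Measure X) [IsFiniteMeasure μ] (f : X → ℝ) (hf : Continuous f) (B : ℝ)
    (hB : ∀ x, |f x| ≤ B) : Integrable f μ :=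
  Integrable.of_bound (C := B) hf.measurable.aestronglyMeasurable (Eventually.of_forall hB)

end aux

theorem sampled_of_exp_gen {G X : Type*} [Group G] [TopologicalSpace G] [TopologicalSpace X]
    [MeasurableSpace X] [BorelSpace X] [MulAction G X] [ContinuousSMul G X] {r : ℕ}
    (a : V r → G) (ha : ∀ m m', a (m + m') = a m * a m') (μ : Measure X)
    [IsProbabilityMeasure μ] (hμ : ∀ m, μ.map (fun x => a m • x) = μ) (h : ExpMix a μ)
    (w : V r →+ ℝ) (hw : ∀ (N : ℕ) (η : ℝ), 0 < N → 0 < η → ∃ P : ℕ, 0 < P ∧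
      ∀ Q : ℕ, P ≤ Q → ∃ v ∈ strip w N η Q, (Q : ℝ) ≤ P * ‖v‖) : Sampled a μ w := by
  obtain ⟨T, nm, K, L, c, hc, hconst, halg, htr, hmix, hdense⟩ := h
  intro N η hN hη
  obtain ⟨P, hP, hvec⟩ := hw N η hN hη
  have hPr : (0 : ℝ) < (P : ℝ) := by exact_mod_cast hP
  obtain ⟨κ, hκ⟩ : ∃ κ : ℝ, κ = 2 * (1 + 2 * P * |L|) / c := ⟨_, rfl⟩
  obtain ⟨q, hq1, hq⟩ := exists_q (⌈κ⌉₊ + 2)
  obtain ⟨Λ, hΛ⟩ : ∃ Λ : ℕ, Λ = (⌈κ⌉₊ + 2) * q := ⟨_, rfl⟩
  have hΛ2 : 2 ≤ Λ := by
    rw [hΛ]
    nlinarith [Nat.zero_le ⌈κ⌉₊]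
  have hΛr : (2 : ℝ) ≤ (Λ : ℝ) := by exact_mod_cast hΛ2
  have hΛκ : 2 * q * (1 + 2 * P * |L|) ≤ c * Λ := by
    have h1 : κ * q ≤ (Λ : ℝ) := by
      rw [hΛ]
      push_cast
      exact mul_le_mul_of_nonneg_right ((Nat.le_ceil κ).trans (by linarith)) (Nat.cast_nonneg _)
    have h2 : c * κ = 2 * (1 + 2 * P * |L|) := by
      rw [hκ]
      field_simp
    have h3 : c * (κ * q) ≤ c * Λ := mul_le_mul_of_nonneg_left h1 hc.le
    calc 2 * q * (1 + 2 * P * |L|) = c * κ * q := by rw [h2]; ring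
      _ = c * (κ * q) := by ring
      _ ≤ c * Λ := h3
  have hΛq : Λ ^ 2 ≤ 2 ^ q := by rw [hΛ]; exact hq
  have hvj : ∀ j : ℕ, ∃ v ∈ strip w N η (P * Λ ^ j), ((P * Λ ^ j : ℕ) : ℝ) ≤ P * ‖v‖ := fun j =>
    hvec _ (Nat.le_mul_of_pos_right _ (pow_pos (by omega) j))
  choose v hvs hvn using hvj
  have hlow : ∀ j, (Λ : ℝ) ^ j ≤ ‖v j‖ := by
    intro j
    have := hvn j
    push_cast at this
    exact le_of_mul_le_mul_left this hPr
  have hup : ∀ j, ‖v j‖ ≤ P * (Λ : ℝ) ^ j := by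
    intro j
    rw [pi_norm_le_iff_of_nonneg (by positivity)]
    intro i
    have h1 := (mem_strip.1 (hvs j)).1 i
    rw [Int.norm_eq_abs]
    have h2 : ((|v j i| : ℤ) : ℝ) ≤ (((P * Λ ^ j : ℕ) : ℤ) : ℝ) := Int.cast_le.2 h1
    push_cast at h2
    exact h2
  have hsum : ∀ j, ∑ i ∈ Finset.range (j + 1), ‖v i‖ ≤ 2 * P * (Λ : ℝ) ^ j := by
    intro j
    calc ∑ i ∈ Finset.range (j + 1), ‖v i‖ ≤ ∑ i ∈ Finset.range (j + 1), P * (Λ : ℝ) ^ i :=
          Finset.sum_le_sum fun i _ => hup i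
      _ = P * ∑ i ∈ Finset.range (j + 1), (Λ : ℝ) ^ i := by rw [Finset.mul_sum]
      _ ≤ P * (2 * (Λ : ℝ) ^ j) := mul_le_mul_of_nonneg_left (geom_le Λ hΛ2 j) hPr.le
      _ = 2 * P * (Λ : ℝ) ^ j := by ring
  have hv : ∀ j : ℕ, 2 * q * (j * Real.log 2 + |L| * ∑ i ∈ Finset.range j, ‖v i‖) ≤
      c * ‖v j‖ := by
    intro j
    rcases j with _ | j
    · simp only [CharP.cast_eq_zero, zero_mul, Finset.range_zero, Finset.sum_empty, mul_zero,
        add_zero]
      positivity
    · have h1 : ((j + 1 : ℕ) : ℝ) * Real.log 2 ≤ (Λ : ℝ) ^ j := by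
        have e1 : Real.log 2 ≤ 1 := by
          have := Real.log_two_lt_d9
          linarith
        have e2 : ((j + 1 : ℕ) : ℝ) ≤ 2 ^ j := le_two_pow j
        have e3 : (2 : ℝ) ^ j ≤ (Λ : ℝ) ^ j := pow_le_pow_left₀ (by norm_num) hΛr j
        calc ((j + 1 : ℕ) : ℝ) * Real.log 2 ≤ ((j + 1 : ℕ) : ℝ) * 1 :=
              mul_le_mul_of_nonneg_left e1 (Nat.cast_nonneg _)
          _ ≤ (Λ : ℝ) ^ j := by linarith
      have h2 : |L| * ∑ i ∈ Finset.range (j + 1), ‖v i‖ ≤ |L| * (2 * P * (Λ : ℝ) ^ j) :=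
        mul_le_mul_of_nonneg_left (hsum j) (abs_nonneg _)
      have h3 : 2 * (q : ℝ) * (((j + 1 : ℕ) : ℝ) * Real.log 2 +
          |L| * ∑ i ∈ Finset.range (j + 1), ‖v i‖) ≤
          2 * q * ((Λ : ℝ) ^ j + |L| * (2 * P * (Λ : ℝ) ^ j)) :=
        mul_le_mul_of_nonneg_left (by linarith) (by positivity)
      refine h3.trans ?_
      have h4 : 2 * (q : ℝ) * ((Λ : ℝ) ^ j + |L| * (2 * P * (Λ : ℝ) ^ j)) =
          2 * q * (1 + 2 * P * |L|) * (Λ : ℝ) ^ j := by ring
      have h5 : 2 * q * (1 + 2 * P * |L|) * (Λ : ℝ) ^ j ≤ c * Λ * (Λ : ℝ) ^ j :=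
        mul_le_mul_of_nonneg_right hΛκ (by positivity)
      have h6 : c * Λ * (Λ : ℝ) ^ j = c * (Λ : ℝ) ^ (j + 1) := by rw [pow_succ]; ring
      rw [h4]
      refine h5.trans ?_
      rw [h6]
      exact mul_le_mul_of_nonneg_left (hlow _) hc.le
  obtain ⟨k, hk⟩ : ∃ k : ℕ → ℕ, k = fun R => Nat.log Λ (R / P) := ⟨_, rfl⟩
  refine ⟨fun R => tree w v (k R) 0, fun R => ⟨?_, fun m hm => ?_⟩, ?_⟩
  · intro h0
    have := tree_length w v (k R) 0
    have h0' : tree w v (k R) 0 = [] := h0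
    rw [h0'] at this
    simp only [List.length_nil] at this
    exact absurd this.symm (pow_ne_zero _ two_ne_zero)
  · have h1 := tree_near w v (k R) 0 m hm
    rw [sub_zero] at h1
    have h2 : ‖m‖ ≤ (R : ℝ) := by
      rcases Nat.eq_zero_or_pos (k R) with h0 | h0
      · rw [h0] at h1
        simp only [Finset.range_zero, Finset.sum_empty] at h1
        exact h1.trans (Nat.cast_nonneg _)
      · obtain ⟨k', hk'⟩ : ∃ k', k R = k' + 1 := ⟨k R - 1, by omega⟩
        have h3 : R / P ≠ 0 := by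
          intro h4
          rw [hk] at h0
          simp only [h4, Nat.log_zero_right] at h0
          omega
        have h4 : Λ ^ (k R) ≤ R / P := by
          rw [hk]
          exact Nat.pow_log_le_self Λ h3
        have h5 : P * Λ ^ (k R) ≤ R := by
          calc P * Λ ^ (k R) ≤ P * (R / P) := Nat.mul_le_mul_left _ h4
            _ ≤ R := Nat.mul_div_le R P
        have h6 : (P : ℝ) * (Λ : ℝ) ^ (k R) ≤ (R : ℝ) := by exact_mod_cast h5
        rw [hk'] at h1 h6
        have h7 := hsum k'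
        have h8 : 2 * P * (Λ : ℝ) ^ k' ≤ P * (Λ : ℝ) ^ (k' + 1) := by
          rw [pow_succ]
          have e1 : 2 * P * (Λ : ℝ) ^ k' = P * ((Λ : ℝ) ^ k' * 2) := by ring
          rw [e1]
          exact mul_le_mul_of_nonneg_left (mul_le_mul_of_nonneg_left hΛr (by positivity)) hPr.le
        linarith
    rw [mem_strip]
    have h3 := tree_strip w v N η (fun j => (mem_strip.1 (hvs j)).2) (k R) 0 m
      ⟨fun i => by simp, by simpa using hη⟩ hm
    refine ⟨fun i => ?_, h3⟩
    have h4 : ‖m i‖ ≤ (R : ℝ) := (norm_le_pi_norm m i).trans h2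
    rw [Int.norm_eq_abs] at h4
    have h5 : ((|m i| : ℤ) : ℝ) ≤ ((R : ℤ) : ℝ) := by push_cast; exact h4
    exact Int.cast_le.1 h5
  · intro θ hθ ε hε
    obtain ⟨f, hf, hfc, hfθ⟩ := hdense θ hθ ε hε
    refine ⟨f, hfc, hfθ, fun δ hδ => ?_⟩
    obtain ⟨M, hM0, hM⟩ := tree_moment a ha μ hμ T nm K L c hc hconst halg htr hmix w v q hv f hf
    obtain ⟨c₀, hc₀⟩ : ∃ c₀, c₀ = ∫ y, f y ∂μ := ⟨_, rfl⟩
    rw [← hc₀]
    have hbound : ∀ R : ℕ, μ.real {x | δ < |lavg a (tree w v (k R) 0) f x - c₀|} ≤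
        (M / δ ^ (2 * q) * (P * Λ) ^ 2) * (1 / ((R + 1 : ℕ) : ℝ) ^ 2) := by
      intro R
      obtain ⟨n, hn⟩ : ∃ n, n = k R := ⟨_, rfl⟩
      rw [← hn]
      obtain ⟨S, hS⟩ : ∃ S : X → ℝ, S = fun x =>
        ((tree w v n 0).map fun m => f (a m • x) - c₀).sum := ⟨_, rfl⟩
      have hlist : ∀ (l : List (V r)) (x : X), (l.map fun m => f (a m • x) - c₀).sum =
          (l.map fun m => f (a m • x)).sum - l.length * c₀ := by
        intro l x
        induction l with
        | nil => simp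
        | cons m l ih =>
          rw [List.map_cons, List.sum_cons, ih, List.map_cons, List.sum_cons, List.length_cons]
          push_cast
          ring
      have h2n : (0 : ℝ) < 2 ^ n := by positivity
      have hlavg : ∀ x, lavg a (tree w v n 0) f x - c₀ = S x / 2 ^ n := by
        intro x
        unfold lavg
        rw [hS]
        simp only
        rw [hlist, tree_length]
        push_cast
        field_simp
      have hScont : Continuous S := by
        have : ∀ l : List (V r), Continuous fun x : X => (l.map fun m => f (a m • x) - c₀).sum := by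
          intro l
          induction l with
          | nil => simpa using continuous_const
          | cons m l ih =>
            simp only [List.map_cons, List.sum_cons]
            exact ((f.continuous.comp (continuous_const_smul _)).sub continuous_const).add ih
        rw [hS]
        exact this _
      have hSbd : ∃ Bd : ℝ, ∀ x, |S x| ≤ Bd := by
        have : ∀ l : List (V r), ∀ x, |(l.map fun m => f (a m • x) - c₀).sum| ≤
            l.length * (nm f + |c₀|) := by
          intro l x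
          induction l with
          | nil => simp
          | cons m l ih =>
            rw [List.map_cons, List.sum_cons, List.length_cons]
            refine (abs_add_le _ _).trans ?_
            have e1 : |f (a m • x) - c₀| ≤ nm f + |c₀| := (abs_sub _ _).trans
              (by have := (htr f hf).1 (a m • x); linarith)
            push_cast
            linarith
        exact ⟨_, fun x => by rw [hS]; exact this _ x⟩
      obtain ⟨Bd, hBd⟩ := hSbd
      have hint : Integrable (fun x => S x ^ (2 * q)) μ :=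
        int_bdd μ _ (hScont.pow _) (Bd ^ (2 * q)) fun x => by
          rw [abs_pow]
          exact pow_le_pow_left₀ (abs_nonneg _) (hBd x) _
      have hmom : ∫ x, S x ^ (2 * q) ∂μ ≤ M * 2 ^ (q * n) := by
        have := hM n 0
        rw [← hc₀] at this
        rw [hS]
        exact (le_abs_self _).trans this
      have hmark := mul_meas_ge_le_integral_of_nonneg (μ := μ) (f := fun x => S x ^ (2 * q))
        (Eventually.of_forall fun x => by
          simp only [Pi.zero_apply]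
          rw [pow_mul]
          positivity) hint ((δ * 2 ^ n) ^ (2 * q))
      have hsub : {x | δ < |lavg a (tree w v n 0) f x - c₀|} ⊆
          {x | (δ * 2 ^ n) ^ (2 * q) ≤ S x ^ (2 * q)} := by
        intro x hx
        simp only [Set.mem_ofPred_eq] at hx ⊢
        rw [hlavg, abs_div, abs_of_pos h2n, lt_div_iff₀ h2n] at hx
        have e1 : S x ^ (2 * q) = |S x| ^ (2 * q) := by
          rw [pow_mul, pow_mul, sq_abs]
        rw [e1]
        exact pow_le_pow_left₀ (by positivity) hx.le _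
      have hpos : 0 < (δ * 2 ^ n) ^ (2 * q) := by positivity
      have h1 : μ.real {x | δ < |lavg a (tree w v n 0) f x - c₀|} ≤
          M * 2 ^ (q * n) / (δ * 2 ^ n) ^ (2 * q) := by
        rw [le_div_iff₀ hpos, mul_comm]
        refine le_trans ?_ hmom
        refine le_trans ?_ hmark
        exact mul_le_mul_of_nonneg_left (measureReal_mono hsub) hpos.le
      refine h1.trans ?_
      have h3 : (R + 1 : ℕ) ≤ P * Λ * Λ ^ n := by
        have e1 : R / P < Λ ^ (n + 1) := by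
          rw [hn, hk]
          exact Nat.lt_pow_succ_log_self (by omega) _
        rw [Nat.div_lt_iff_lt_mul hP] at e1
        have e2 : Λ ^ (n + 1) * P = P * Λ * Λ ^ n := by rw [pow_succ]; ring
        omega
      have h4 : (((R + 1 : ℕ) : ℝ)) ^ 2 ≤ (P * Λ) ^ 2 * 2 ^ (q * n) := by
        have e1 : (((R + 1 : ℕ) : ℝ)) ≤ P * Λ * (Λ : ℝ) ^ n := by exact_mod_cast h3
        have e2 : ((Λ : ℝ) ^ 2) ^ n ≤ (2 ^ q) ^ n := by
          apply pow_le_pow_left₀ (by positivity)
          exact_mod_cast hΛq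
        calc (((R + 1 : ℕ) : ℝ)) ^ 2 ≤ (P * Λ * (Λ : ℝ) ^ n) ^ 2 :=
              pow_le_pow_left₀ (Nat.cast_nonneg _) e1 2
          _ = (P * Λ) ^ 2 * ((Λ : ℝ) ^ 2) ^ n := by ring
          _ ≤ (P * Λ) ^ 2 * (2 ^ q) ^ n := mul_le_mul_of_nonneg_left e2 (by positivity)
          _ = (P * Λ) ^ 2 * 2 ^ (q * n) := by rw [pow_mul]
      have h5 : M * 2 ^ (q * n) / (δ * 2 ^ n) ^ (2 * q) = M / δ ^ (2 * q) / 2 ^ (q * n) := by
        have e1 : (δ * 2 ^ n) ^ (2 * q) = δ ^ (2 * q) * (2 ^ (q * n) * 2 ^ (q * n)) := by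
          rw [mul_pow, ← pow_mul, ← pow_add]
          congr 2
          ring
        rw [e1]
        field_simp
      have hR : (0 : ℝ) < ((R + 1 : ℕ) : ℝ) := by positivity
      rw [h5, mul_assoc, div_eq_mul_inv (M / δ ^ (2 * q))]
      refine mul_le_mul_of_nonneg_left ?_ (by positivity)
      rw [inv_eq_one_div, mul_one_div, div_le_div_iff₀ (by positivity) (by positivity)]
      linarith
    refine Summable.of_nonneg_of_le (fun R => measureReal_nonneg) hbound ?_
    refine Summable.mul_left _ ?_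
    exact (summable_nat_add_iff 1).2 (Real.summable_one_div_nat_pow.2 one_lt_two)

/-- Exponential mixing implies polynomial mixing of order two. -/

private lemma vec_one (N : ℕ) (η : ℝ) (hN : 0 < N) (hη : 0 < η) : ∃ P : ℕ, 0 < P ∧
    ∀ Q : ℕ, P ≤ Q → ∃ v ∈ strip (0 : V 1 →+ ℝ) N η Q, (Q : ℝ) ≤ P * ‖v‖ := by
  refine ⟨2 * N, by omega, fun Q hQ => ⟨fun _ => (N : ℤ) * ((Q / N : ℕ) : ℤ), ?_, ?_⟩⟩
  · rw [mem_strip]
    refine ⟨fun i => ?_, fun i => dvd_mul_right _ _, by simpa using hη⟩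
    rw [abs_of_nonneg (by positivity)]
    exact_mod_cast Nat.mul_div_le Q N
  · have h1 : ‖(fun _ => (N : ℤ) * ((Q / N : ℕ) : ℤ) : V 1)‖ = (N : ℝ) * ((Q / N : ℕ) : ℝ) := by
      rw [pi_norm_const, Int.norm_eq_abs, Int.cast_mul, Int.cast_natCast, Int.cast_natCast,
        abs_of_nonneg (by positivity)]
    rw [h1]
    have h2 : Q < N * (Q / N) + N := by
      have h3 := Nat.div_add_mod Q N
      have h4 := Nat.mod_lt Q hN
      omega
    have h5 : Q ≤ 2 * N * (N * (Q / N)) := by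
      have h6 : Q ≤ 2 * (N * (Q / N)) := by omega
      calc Q ≤ 2 * (N * (Q / N)) := h6
        _ = 2 * 1 * (N * (Q / N)) := by ring
        _ ≤ 2 * N * (N * (Q / N)) := by
          apply Nat.mul_le_mul_right
          omega
    exact_mod_cast h5

private lemma summable_div {g : ℕ → ℝ} (hg : Summable g) (h0 : ∀ n, 0 ≤ g n) (B : ℕ)
    (hB : 0 < B) : Summable fun n : ℕ => g (n / B) := by
  refine summable_of_sum_range_le (c := B * ∑' n, g n) (fun n => h0 _) fun n => ?_
  have h1 : ∀ k : ℕ, ∑ i ∈ Finset.range (k * B), g (i / B) = B * ∑ j ∈ Finset.range k, g j := by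
    intro k
    induction k with
    | zero => simp
    | succ k ih =>
      rw [Nat.succ_mul, Finset.sum_range_add, ih, Finset.sum_range_succ, mul_add]
      congr 1
      have h2 : ∀ i ∈ Finset.range B, g ((k * B + i) / B) = g k := by
        intro i hi
        congr 1
        rw [mul_comm, Nat.mul_add_div hB, Nat.div_eq_of_lt (Finset.mem_range.1 hi), add_zero]
      rw [Finset.sum_congr rfl h2, Finset.sum_const, Finset.card_range, nsmul_eq_mul]
  calc ∑ i ∈ Finset.range n, g (i / B) ≤ ∑ i ∈ Finset.range (n * B), g (i / B) :=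
        Finset.sum_le_sum_of_subset_of_nonneg
          (Finset.range_mono (Nat.le_mul_of_pos_right n hB)) fun i _ _ => h0 _
    _ = B * ∑ j ∈ Finset.range n, g j := h1 n
    _ ≤ B * ∑' n, g n :=
        mul_le_mul_of_nonneg_left (hg.sum_le_tsum _ fun i _ => h0 i) (Nat.cast_nonneg _)

/-- If the element `a b`, `w b = 0`, is exponentially mixing of order two, then there are samples
with complete convergence along the wall `w = 0`. -/
theorem sampled_of_elt {G X : Type*} [Group G] [TopologicalSpace G] [TopologicalSpace X]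
    [MeasurableSpace X] [BorelSpace X] [MulAction G X] [ContinuousSMul G X] {r : ℕ}
    (a : V r → G) (ha : ∀ m m', a (m + m') = a m * a m') (μ : Measure X)
    [IsProbabilityMeasure μ] (hμ : ∀ m, μ.map (fun x => a m • x) = μ) (w : V r →+ ℝ)
    (b : V r) (hb : w b = 0) (h : ExpMix (fun k : V 1 => a (k 0 • b)) μ) : Sampled a μ w := by
  intro N η hN hη
  have h1 := sampled_of_exp_gen (fun k : V 1 => a (k 0 • b))
    (fun m m' => by
      show a ((m + m') 0 • b) = _
      rw [Pi.add_apply, add_smul, ha]) μ (fun m => hμ _) h 0 vec_one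
  obtain ⟨F, hF, hFc⟩ := h1 N η hN hη
  obtain ⟨B, hB⟩ : ∃ B : ℕ, ∀ i, |b i| ≤ (B : ℤ) := by
    refine ⟨∑ i, (b i).natAbs, fun i => ?_⟩
    rw [Int.abs_eq_natAbs]
    exact_mod_cast Finset.single_le_sum (f := fun i => (b i).natAbs) (fun _ _ => Nat.zero_le _)
      (Finset.mem_univ i)
  refine ⟨fun R => (F (R / (B + 1))).map fun k => k 0 • b, fun R => ⟨?_, fun m hm => ?_⟩, ?_⟩
  · have := (hF (R / (B + 1))).1
    simpa using this
  · rw [List.mem_map] at hm
    obtain ⟨k, hk, rfl⟩ := hm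
    have h2 := mem_strip.1 ((hF (R / (B + 1))).2 k hk)
    rw [mem_strip]
    refine ⟨fun i => ?_, fun i => ?_, ?_⟩
    · rw [Pi.smul_apply, smul_eq_mul, abs_mul]
      have h3 := h2.1 0
      calc |k 0| * |b i| ≤ ((R / (B + 1) : ℕ) : ℤ) * (B : ℤ) :=
            mul_le_mul h3 (hB i) (abs_nonneg _) (by positivity)
        _ ≤ (R : ℤ) := by
          have h4 : R / (B + 1) * B ≤ R := by
            calc R / (B + 1) * B ≤ R / (B + 1) * (B + 1) := Nat.mul_le_mul_left _ (by omega)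
              _ ≤ R := Nat.div_mul_le_self R (B + 1)
          exact_mod_cast h4
    · rw [Pi.smul_apply, smul_eq_mul]
      exact dvd_mul_of_dvd_left (h2.2.1 0) _
    · rw [map_zsmul, hb, smul_zero, abs_zero]
      exact hη
  · intro θ hθ ε hε
    obtain ⟨f, hf1, hf2, hf3⟩ := hFc θ hθ ε hε
    refine ⟨f, hf1, hf2, fun δ hδ => ?_⟩
    have h2 := summable_div (hf3 δ hδ) (fun _ => measureReal_nonneg) (B + 1) (by omega)
    have h3 : ∀ (R : ℕ) (x : X), lavg a ((F (R / (B + 1))).map fun k => k 0 • b) f x =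
        lavg (fun k : V 1 => a (k 0 • b)) (F (R / (B + 1))) f x := by
      intro R x
      unfold lavg
      rw [List.map_map, List.length_map]
      rfl
    simp only [h3]
    exact h2

/-- Exponential mixing of order two of the powers of the element `a b`, in terms of `V 1`. -/
theorem expMix_of_elt {G X : Type*} [Group G] [TopologicalSpace G] [TopologicalSpace X]
    [MeasurableSpace X] [BorelSpace X] [MulAction G X] [ContinuousSMul G X] {r : ℕ}
    (a : V r → G) (ha : ∀ m m', a (m + m') = a m * a m') (μ : Measure X)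
    [IsProbabilityMeasure μ] (hμ : ∀ m, μ.map (fun x => a m • x) = μ) (b : V r)
    (T : Set C(X, ℝ)) (nm : C(X, ℝ) → ℝ) (K L c : ℝ) (hc : 0 < c)
    (hconst : ∀ t : ℝ, ContinuousMap.const X t ∈ T ∧ nm (ContinuousMap.const X t) ≤ K * |t|)
    (halg : ∀ f ∈ T, ∀ g ∈ T, f + g ∈ T ∧ nm (f + g) ≤ nm f + nm g ∧ f * g ∈ T ∧
      nm (f * g) ≤ nm f * nm g)
    (htr : ∀ f ∈ T, (∀ x, |f x| ≤ nm f) ∧ ∀ k : ℤ, ∃ g ∈ T, (∀ x, g x = f (a (k • b) • x)) ∧
      nm g ≤ Real.exp (L * |(k : ℝ)|) * nm f)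
    (hmix : ∀ f ∈ T, ∀ g ∈ T, ∀ k : ℕ,
      |∫ x, f x * g (a ((k : ℤ) • b) • x) ∂μ - (∫ x, f x ∂μ) * ∫ x, g x ∂μ| ≤
        nm f * nm g * Real.exp (-c * k))
    (hdense : ∀ θ : C(X, ℝ), HasCompactSupport θ → ∀ ε : ℝ, 0 < ε →
      ∃ f ∈ T, HasCompactSupport f ∧ ∀ x, |θ x - f x| ≤ ε) :
    ExpMix (fun k : V 1 => a (k 0 • b)) μ := by
  have hnorm : ∀ m : V 1, ‖m‖ = |((m 0 : ℤ) : ℝ)| := by
    intro m
    rw [show m = fun _ => m 0 from funext fun i => by rw [Subsingleton.elim i 0], pi_norm_const,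
      Int.norm_eq_abs]
  refine ⟨T, nm, K, L, c, hc, hconst, halg, fun f hf => ⟨(htr f hf).1, fun m => ?_⟩,
    fun f hf g hg m => ?_, hdense⟩
  · rw [hnorm]
    exact (htr f hf).2 (m 0)
  · rw [hnorm]
    show |∫ x, f x * g (a (m 0 • b) • x) ∂μ - (∫ x, f x ∂μ) * ∫ x, g x ∂μ| ≤ _
    rcases le_total 0 (m 0) with h0 | h0
    · obtain ⟨k, hk⟩ := Int.eq_ofNat_of_zero_le h0
      rw [hk]
      have := hmix f hf g hg k
      rw [Int.cast_natCast, abs_of_nonneg (Nat.cast_nonneg k : (0 : ℝ) ≤ k)]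
      exact this
    · obtain ⟨k, hk⟩ := Int.eq_ofNat_of_zero_le (neg_nonneg.2 h0)
      have hk' : m 0 = -(k : ℤ) := by linarith
      rw [hk']
      have h1 := hmix g hg f hf k
      have h2 : ∫ x, f x * g (a ((-(k : ℤ)) • b) • x) ∂μ =
          ∫ x, g x * f (a ((k : ℤ) • b) • x) ∂μ := by
        have h3 := integral_map (μ := μ) (φ := fun x : X => a ((k : ℤ) • b) • x)
          (f := fun x => f x * g (a ((-(k : ℤ)) • b) • x))
          (continuous_const_smul _).measurable.aemeasurable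
          ((f.continuous.mul (g.continuous.comp
            (continuous_const_smul _))).measurable.aestronglyMeasurable)
        rw [hμ] at h3
        rw [h3]
        refine integral_congr_ae (Eventually.of_forall fun x => ?_)
        show f (a ((k : ℤ) • b) • x) * g (a ((-(k : ℤ)) • b) • a ((k : ℤ) • b) • x) = _
        have h4 : a (0 : V r) = 1 := by
          have := ha 0 0
          rw [add_zero] at this
          exact (mul_eq_left.1 this.symm)
        rw [smul_smul, ← ha, ← add_smul, neg_add_cancel, zero_smul, h4, one_smul, mul_comm]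
      rw [h2, Int.cast_neg, abs_neg, Int.cast_natCast, abs_of_nonneg (Nat.cast_nonneg k : (0 : ℝ) ≤ k),
        mul_comm (∫ x, f x ∂μ), mul_comm (nm f)]
      exact h1

end PoolMX
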